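import Pool.Agent.H93.TN.TargetsC

/-!
# RGN: the list of regions (MP_ee74d2_an)
-/

set_option autoImplicit false

namespace Pool.Agent.H74.TN

open Pool.Agent.H93.TN
open Pool.Agent.H83.LS Pool.Agent.H93.AR Pool.Agent.H54.LS Pool.Agent.H14.LS Pool.Agent.H83.AR
open Pool.Agent.H84.BR Pool.Agent.H84.B2

/-- the square of the loss -/
lemma rgn_sq {lam Lam X φ : ℝ} (hlam : 1 ≤ lam) (hLam : Real.sqrt lam ≤ Lam)
    (hX : X = Lam ^ 2 / lam) : (φ / dl lam Lam) ^ 2 = 256 * X * φ ^ 2 := by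
  have h0 : (0 : ℝ) < lam := by linarith
  have hs : 0 < Real.sqrt lam := Real.sqrt_pos.2 h0
  have hL : 0 < Lam := lt_of_lt_of_le hs hLam
  unfold dl
  rw [hX]
  have h1 : Real.sqrt lam ^ 2 = lam := Real.sq_sqrt h0.le
  field_simp
  nlinarith [h1]

/-- one region -/
lemma rgn_one {n : ℕ} {ε lam Lam L X s : ℝ} (hn : 2 ≤ n) (hε : 0 < ε) (hlam : 1 ≤ lam)
    (hLam : Real.sqrt lam ≤ Lam) (hLam4 : Lam ≤ 4 * lam) (hL : 1 ≤ L) (hX : X = Lam ^ 2 / lam)
    (hLs : L ≤ s) (hsX : s ≤ X) : ∃ ρ φ : ℝ, ρ ≤ s / Lam ∧ RG n ε lam Lam L ρ φ ∧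
      dl lam Lam ≤ φ ∧ φ ≤ 1 ∧ 512 * φ ^ 2 * s ≤ 131072 * lam ^ (2 * ε) * L := by
  have h0 : (0 : ℝ) < lam := by linarith
  have hs0 : 0 < Real.sqrt lam := Real.sqrt_pos.2 h0
  have hL0 : 0 < Lam := lt_of_lt_of_le hs0 hLam
  have hs1 : 1 ≤ s := hL.trans hLs
  have hsp : 0 < s := by linarith
  have hX1 : 1 ≤ X := hs1.trans hsX
  have hle : 1 ≤ lam ^ ε := Real.one_le_rpow hlam hε.le
  have hle2 : lam ^ (2 * ε) = (lam ^ ε) ^ 2 := by
    rw [← Real.rpow_natCast, ← Real.rpow_mul h0.le, mul_comm]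
    norm_num
  have hdl1 : dl lam Lam ≤ 1 := by
    unfold dl
    rw [div_le_one (by positivity)]
    linarith
  have hsq : 0 < Real.sqrt s := Real.sqrt_pos.2 hsp
  have hss : Real.sqrt s ^ 2 = s := Real.sq_sqrt hsp.le
  set f := lam ^ ε * max (L / s) (1 / Real.sqrt s) with hf
  by_cases hf16 : f ≤ 1 / 16
  · have hρ : s / Lam * Lam = s := div_mul_cancel₀ _ hL0.ne'
    have hdlf : dl lam Lam ≤ f := by
      have h1 : 1 / Real.sqrt s ≤ f := by
        calc 1 / Real.sqrt s ≤ max (L / s) (1 / Real.sqrt s) := le_max_right _ _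
          _ ≤ lam ^ ε * max (L / s) (1 / Real.sqrt s) :=
            le_mul_of_one_le_left (le_max_of_le_right (by positivity)) hle
      refine le_trans ?_ h1
      unfold dl
      rw [div_le_div_iff₀ (by positivity) hsq]
      have h2 : Real.sqrt lam * Real.sqrt s ≤ Lam := by
        rw [← Real.sqrt_mul h0.le]
        refine (Real.sqrt_le_sqrt (y := Lam ^ 2) ?_).trans (le_of_eq (Real.sqrt_sq hL0.le))
        calc lam * s ≤ lam * X := by gcongr
          _ = Lam ^ 2 := by rw [hX]; field_simp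
      linarith
    refine ⟨s / Lam, f, le_rfl, Or.inr ⟨hn, by positivity, ?_, hdlf, hf16, ?_, ?_⟩, hdlf,
      by linarith, ?_⟩
    · rw [div_le_iff₀ hL0]
      calc s ≤ X := hsX
        _ = Lam * (Lam / lam) := by rw [hX]; ring
        _ ≤ Lam * 4 := by
          gcongr
          rw [div_le_iff₀ h0]
          exact hLam4
        _ = 4 * Lam := by ring
    · rw [hρ, hf]
      gcongr
      exact le_max_left _ _
    · rw [hρ, hf, div_eq_mul_one_div]
      gcongr
      exact le_max_right _ _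
    · have h1 : f ^ 2 * s ≤ lam ^ (2 * ε) * L := by
        rw [hf, mul_pow, ← hle2, mul_assoc]
        refine mul_le_mul_of_nonneg_left ?_ (by positivity)
        rcases max_cases (L / s) (1 / Real.sqrt s) with ⟨h, -⟩ | ⟨h, -⟩
        · rw [h, div_pow, div_mul_eq_mul_div, div_le_iff₀ (by positivity)]
          nlinarith [mul_nonneg (by linarith : (0 : ℝ) ≤ s - L) (by positivity : (0 : ℝ) ≤ L * s)]
        · rw [h, div_pow, hss, one_pow, one_div, inv_mul_cancel₀ hsp.ne']
          exact hL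
      have h2 : 0 ≤ lam ^ (2 * ε) * L := by positivity
      nlinarith
  · refine ⟨0, 1, by positivity, Or.inl ⟨rfl, rfl⟩, hdl1, le_rfl, ?_⟩
    have h1 : s ≤ 256 * lam ^ (2 * ε) * L := by
      rw [hle2]
      rcases max_cases (L / s) (1 / Real.sqrt s) with ⟨h, -⟩ | ⟨h, -⟩
      · rw [hf, h, not_le] at hf16
        have h2 : s < 16 * (lam ^ ε * L) := by
          rw [← mul_div_assoc, lt_div_iff₀ hsp] at hf16
          linarith
        nlinarith [mul_nonneg (by linarith : (0 : ℝ) ≤ lam ^ ε - 1)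
          (by positivity : (0 : ℝ) ≤ lam ^ ε * L), (by positivity : (0 : ℝ) ≤ lam ^ ε * L)]
      · rw [hf, h, not_le, ← mul_div_assoc, lt_div_iff₀ hsq, mul_one] at hf16
        have h2 : Real.sqrt s < 16 * lam ^ ε := by linarith
        have h3 : s < 256 * (lam ^ ε) ^ 2 := by
          rw [← hss]
          nlinarith
        have h4 : (0 : ℝ) ≤ (lam ^ ε) ^ 2 := by positivity
        nlinarith
    nlinarith

/-- **RGN** -/
theorem pf_rgn : T_RGN := by
  intro n ε hn hε
  have hl2 : 0 < Real.log 2 := Real.log_pos one_lt_two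
  have hC7 : 0 ≤ 1 / (ε * Real.log 2) := by positivity
  refine ⟨131072 + (7 + 1 / (ε * Real.log 2)), by linarith, ?_⟩
  intro lam Lam L Z hlam hLam hLam4 hL hZ
  have h0 : (0 : ℝ) < lam := by linarith
  have hs0 : 0 < Real.sqrt lam := Real.sqrt_pos.2 h0
  have hs1 : 1 ≤ Real.sqrt lam := Real.one_le_sqrt.2 hlam
  have hL0 : 0 < Lam := lt_of_lt_of_le hs0 hLam
  have hLam1 : 1 ≤ Lam := hs1.trans hLam
  have hle : 1 ≤ lam ^ ε := Real.one_le_rpow hlam hε.le
  have hle2 : 1 ≤ lam ^ (2 * ε) := Real.one_le_rpow hlam (by positivity)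
  obtain ⟨X, hX⟩ : ∃ X, X = Lam ^ 2 / lam := ⟨_, rfl⟩
  have hX1 : 1 ≤ X := by
    rw [hX, le_div_iff₀ h0, one_mul]
    have h1 := Real.sq_sqrt h0.le
    nlinarith
  have hX16 : X ≤ 16 * lam := by
    rw [hX, div_le_iff₀ h0]
    nlinarith
  have hXL : lam / Lam = Lam / X := by
    rw [hX]
    field_simp
  have hdl1 : dl lam Lam ≤ 1 := by
    unfold dl
    rw [div_le_one (by positivity)]
    linarith
  have hZ1 : 1 / Lam ≤ Z := by
    rw [div_le_iff₀ hL0]
    nlinarith
  -- the trivial region is enough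
  have htriv : (2 ≤ n → X ≤ L) → ∃ (J : ℕ) (ρ φ σ : ℕ → ℝ),
      (J : ℝ) ≤ (131072 + (7 + 1 / (ε * Real.log 2))) * lam ^ ε ∧
      (∀ r : ℝ, 0 ≤ r → r ≤ Z → ∃ j < J, ρ j ≤ r ∧ r ≤ σ j) ∧
      ∀ j < J, RG n ε lam Lam L (ρ j) (φ j) ∧ 1 / Lam ≤ σ j ∧
        dl lam Lam ≤ φ j ∧ φ j ≤ 1 ∧
        (2 ≤ n → (φ j / dl lam Lam) ^ 2 * min 1 (σ j * lam / Lam) ≤
          (131072 + (7 + 1 / (ε * Real.log 2))) * lam ^ (2 * ε) * L) := by
    intro h
    refine ⟨1, fun _ => 0, fun _ => 1, fun _ => Z, ?_, fun r hr hrZ => ⟨0, Nat.one_pos, hr, hrZ⟩,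
      fun j _ => ⟨Or.inl ⟨rfl, rfl⟩, hZ1, hdl1, le_rfl, fun hn2 => ?_⟩⟩
    · rw [Nat.cast_one]
      nlinarith
    · have h1 := h hn2
      rw [rgn_sq hlam hLam hX, one_pow, mul_one]
      calc 256 * X * min 1 (Z * lam / Lam) ≤ 256 * X * 1 := by
            gcongr
            exact min_le_left _ _
        _ ≤ 256 * L := by linarith
        _ ≤ (131072 + (7 + 1 / (ε * Real.log 2))) * (1 * L) := by nlinarith
        _ ≤ (131072 + (7 + 1 / (ε * Real.log 2))) * (lam ^ (2 * ε) * L) := by gcongr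
        _ = _ := by ring
  by_cases hn2 : 2 ≤ n
  swap
  · exact htriv fun h => absurd h hn2
  by_cases hXLle : X ≤ L
  · exact htriv fun _ => hXLle
  rw [not_le] at hXLle
  clear htriv
  -- the number of regions
  obtain ⟨J0, hJ0⟩ : ∃ J0 : ℕ, J0 = ⌈Real.logb 2 (16 * lam)⌉₊ := ⟨_, rfl⟩
  have hJpow : X ≤ 2 ^ J0 * L := by
    have h1 : Real.logb 2 (16 * lam) ≤ J0 := hJ0 ▸ Nat.le_ceil _
    have h2 : (16 * lam) ≤ 2 ^ J0 := by
      rw [Real.logb_le_iff_le_rpow one_lt_two (by positivity), Real.rpow_natCast] at h1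
      exact h1
    have h3 : (0 : ℝ) < 2 ^ J0 := by positivity
    nlinarith
  have hJle : ((J0 + 2 : ℕ) : ℝ) ≤ (7 + 1 / (ε * Real.log 2)) * lam ^ ε := by
    have h1 : (J0 : ℝ) < Real.logb 2 (16 * lam) + 1 := by
      rw [hJ0]
      exact Nat.ceil_lt_add_one (Real.logb_nonneg one_lt_two (by linarith))
    have h2 : Real.logb 2 (16 * lam) = 4 + Real.log lam / Real.log 2 := by
      rw [Real.logb_mul (by norm_num) h0.ne']
      congr 1
      rw [show (16 : ℝ) = 2 ^ (4 : ℕ) by norm_num, Real.logb_pow,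
        Real.logb_self_eq_one one_lt_two]
      norm_num
    have h3 : Real.log lam ≤ lam ^ ε / ε := Real.log_le_rpow_div h0.le hε
    have h4 : Real.log lam / Real.log 2 ≤ 1 / (ε * Real.log 2) * lam ^ ε := by
      rw [div_le_iff₀ hl2]
      calc Real.log lam ≤ lam ^ ε / ε := h3
        _ = 1 / (ε * Real.log 2) * lam ^ ε * Real.log 2 := by field_simp
    push_cast
    nlinarith
  -- the regions
  have hs : ∀ j : ℕ, L ≤ min (2 ^ j * L) X ∧ min (2 ^ j * L) X ≤ X := by
    intro j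
    refine ⟨le_min ?_ hXLle.le, min_le_right _ _⟩
    have h1 : (1 : ℝ) ≤ 2 ^ j := one_le_pow₀ one_le_two
    nlinarith
  choose ρ φ hρ1 hρ2 hρ3 hρ4 hρ5 using fun j =>
    rgn_one hn2 hε hlam hLam hLam4 hL hX (hs j).1 (hs j).2
  refine ⟨J0 + 2, fun j => Nat.casesOn j 0 ρ, fun j => Nat.casesOn j 1 φ,
    fun j => Nat.casesOn j (L / Lam) fun j => if 2 ^ j * L < X then
      2 * (2 ^ j * L) / Lam else Z, ?_, ?_, ?_⟩
  · exact hJle.trans (mul_le_mul_of_nonneg_right (by linarith) (by positivity))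
  · intro r hr hrZ
    rcases le_or_gt (r * Lam) L with h | h
    · exact ⟨0, by omega, hr, (le_div_iff₀ hL0).2 h⟩
    · rcases lt_or_ge (r * Lam) X with h2 | h2
      · obtain ⟨j, hj1, hj2⟩ := exists_nat_pow_near (x := r * Lam / L) (y := 2)
          (by rw [le_div_iff₀ (by linarith)]; linarith) one_lt_two
        rw [le_div_iff₀ (by linarith)] at hj1
        rw [div_lt_iff₀ (by linarith)] at hj2
        have hjX : 2 ^ j * L < X := lt_of_le_of_lt hj1 h2
        have hjJ : j < J0 := by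
          by_contra hn
          have h3 : (2 : ℝ) ^ J0 ≤ 2 ^ j := pow_le_pow_right₀ one_le_two (not_lt.1 hn)
          have h4 : (2 : ℝ) ^ J0 * L ≤ 2 ^ j * L := by gcongr
          linarith
        refine ⟨j + 1, by omega, ?_, ?_⟩
        · show ρ j ≤ r
          refine (hρ1 j).trans ?_
          rw [div_le_iff₀ hL0]
          exact (min_le_left _ _).trans hj1
        · show r ≤ if 2 ^ j * L < X then 2 * (2 ^ j * L) / Lam else Z
          rw [if_pos hjX, le_div_iff₀ hL0]
          rw [pow_succ] at hj2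
          linarith
      · refine ⟨J0 + 1, by omega, ?_, ?_⟩
        · show ρ J0 ≤ r
          refine (hρ1 J0).trans ?_
          rw [div_le_iff₀ hL0]
          exact (min_le_right _ _).trans h2
        · show r ≤ if 2 ^ J0 * L < X then 2 * (2 ^ J0 * L) / Lam else Z
          rw [if_neg (not_lt.2 hJpow)]
          exact hrZ
  · intro j hj
    have hCL : 0 ≤ lam ^ (2 * ε) * L := by positivity
    rcases j with _ | j
    · refine ⟨Or.inl ⟨rfl, rfl⟩, ?_, hdl1, le_rfl, fun _ => ?_⟩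
      · show 1 / Lam ≤ L / Lam
        gcongr
      · show (1 / dl lam Lam) ^ 2 * min 1 (L / Lam * lam / Lam) ≤ _
        rw [rgn_sq hlam hLam hX, one_pow, mul_one]
        have h1 : L / Lam * lam / Lam = L / X := by
          rw [hX]
          field_simp
        calc 256 * X * min 1 (L / Lam * lam / Lam) ≤ 256 * X * (L / X) := by
              rw [h1]
              gcongr
              exact min_le_right _ _
          _ = 256 * L := by field_simp
          _ ≤ (131072 + (7 + 1 / (ε * Real.log 2))) * (1 * L) := by nlinarith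
          _ ≤ (131072 + (7 + 1 / (ε * Real.log 2))) * (lam ^ (2 * ε) * L) := by gcongr
          _ = _ := by ring
    · refine ⟨hρ2 j, ?_, hρ3 j, hρ4 j, fun _ => ?_⟩
      · show 1 / Lam ≤ if 2 ^ j * L < X then 2 * (2 ^ j * L) / Lam else Z
        split_ifs
        · gcongr
          have h1 : (1 : ℝ) ≤ 2 ^ j := one_le_pow₀ one_le_two
          nlinarith
        · exact hZ1
      · show (φ j / dl lam Lam) ^ 2 *
          min 1 ((if 2 ^ j * L < X then 2 * (2 ^ j * L) / Lam else Z) * lam / Lam) ≤ _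
        have hXp : 0 < X := by linarith
        have hT : min 1 ((if 2 ^ j * L < X then 2 * (2 ^ j * L) / Lam else Z) * lam / Lam) ≤
            2 * min (2 ^ j * L) X / X := by
          by_cases hjX : 2 ^ j * L < X
          · rw [if_pos hjX, min_eq_left hjX.le]
            refine (min_le_right _ _).trans (le_of_eq ?_)
            rw [hX]
            field_simp
          · rw [if_neg hjX, min_eq_right (not_lt.1 hjX)]
            refine (min_le_left _ _).trans ?_
            rw [le_div_iff₀ hXp]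
            linarith
        rw [rgn_sq hlam hLam hX]
        calc 256 * X * φ j ^ 2 * min 1 ((if 2 ^ j * L < X then 2 * (2 ^ j * L) / Lam else Z) *
              lam / Lam) ≤ 256 * X * φ j ^ 2 * (2 * min (2 ^ j * L) X / X) := by gcongr
          _ = 512 * φ j ^ 2 * min (2 ^ j * L) X := by field_simp; ring
          _ ≤ 131072 * lam ^ (2 * ε) * L := hρ5 j
          _ ≤ _ := by nlinarith

end Pool.Agent.H74.TN
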